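import Pool.Agent.Helper11.TC8.BaseD4

/-!
The numerical certificate: `pfail 16 <= 0.02`, `pnH 16 <= 0.001`.
-/

set_option autoImplicit false

namespace Pool.Agent.Helper11.TC8

open Pool.Agent.Helper86.TC8
open Finset

/-! ### the chain of tables -/

/-- one level -/
theorem up (S : ℕ) (hS : 0 < S) (d : ℕ) (lam Lam lam' : L → Bool → List (ℕ × ℕ))
    (hl : ∀ c P, chk 4 (Lam c P) (lift (lam c) c (st0 P) allSt) = true)
    (hp : ∀ a P, chk S (lam' a P) (prodC (pre tabP (Lam (k1 a) P)) (pre tabQ (Lam (k2 a) P))) =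
      true)
    (h : ∀ c P, Dm S (lam c P) (lawE d c (st0 P))) :
    ∀ a P, Dm S (lam' a P) (lawE (d + 1) a (st0 P)) := by
  intro a P
  exact prod_step S hS d a (st0 P) _ _ _
    (lift_step S d (lam (k1 a)) (k1 a) (st0 P) _ (h (k1 a)) (hl (k1 a) P))
    (lift_step S d (lam (k2 a)) (k2 a) (st0 P) _ (h (k2 a)) (hl (k2 a) P)) (hp a P)

theorem base0 : ∀ c P, Dm 1073741824 (lam0 c P) (lawE 0 c (st0 P)) := by
  have h : ∀ (c : L) (P : Bool) (m : ℕ), lam0 c P = [(m, 1073741824)] →
      (∀ q : Pr, m.testBit (cd q) = true → q = pair c (st0 P)) →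
      Dm 1073741824 (lam0 c P) (lawE 0 c (st0 P)) := by
    intro c P m h1 h2 M hM
    rw [h1]
    have h3 : M (dec m) ≤ M {pair c (st0 P)} := by
      refine hM.1 _ _ fun q hq => ?_
      rw [mem_dec] at hq
      rw [Finset.mem_singleton]
      exact h2 q hq
    simp only [ev, lawE]
    push_cast
    linarith
  intro c P
  cases c <;> cases P <;> refine h _ _ _ rfl ?_ <;> decide +kernel

theorem lev16 : ∀ a P, Dm 1073741824 (lam16 a P) (lawE 16 a (st0 P)) := by
  have hS : 0 < 1073741824 := by norm_num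
  have h1 := up _ hS 0 lam0 Lam0 lam1 lift0 prod0 base0
  have h2 := up _ hS 1 lam1 Lam1 lam2 lift1 prod1 h1
  have h3 := up _ hS 2 lam2 Lam2 lam3 lift2 prod2 h2
  have h4 := up _ hS 3 lam3 Lam3 lam4 lift3 prod3 h3
  have h5 := up _ hS 4 lam4 Lam4 lam5 lift4 prod4 h4
  have h6 := up _ hS 5 lam5 Lam5 lam6 lift5 prod5 h5
  have h7 := up _ hS 6 lam6 Lam6 lam7 lift6 prod6 h6
  have h8 := up _ hS 7 lam7 Lam7 lam8 lift7 prod7 h7
  have h9 := up _ hS 8 lam8 Lam8 lam9 lift8 prod8 h8
  have h10 := up _ hS 9 lam9 Lam9 lam10 lift9 prod9 h9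
  have h11 := up _ hS 10 lam10 Lam10 lam11 lift10 prod10 h10
  have h12 := up _ hS 11 lam11 Lam11 lam12 lift11 prod11 h11
  have h13 := up _ hS 12 lam12 Lam12 lam13 lift12 prod12 h12
  have h14 := up _ hS 13 lam13 Lam13 lam14 lift13 prod13 h13
  have h15 := up _ hS 14 lam14 Lam14 lam15 lift14 prod14 h14
  exact up _ hS 15 lam15 Lam15 lam16 lift15 prod15 h15

/-! ### reading off the numbers -/

/-- total weight of the good masks -/
noncomputable def cnt (good : ℕ → Bool) (l : List (ℕ × ℕ)) : ℕ :=
  List.rec (motive := fun _ => ℕ) 0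
    (fun e _ ih => Bool.rec (motive := fun _ => ℕ) ih (Nat.add e.2 ih) (good e.1)) l

theorem cnt_le (M : Finset Pr → ℝ) (hM : Mon M) (good : ℕ → Bool)
    (hg : ∀ m, good m = true → 1 ≤ M (dec m)) (l : List (ℕ × ℕ)) : (cnt good l : ℝ) ≤ ev M l := by
  induction l with
  | nil => simp [cnt, ev]
  | cons e l ih =>
    have h1 : cnt good (e :: l) = if good e.1 = true then e.2 + cnt good l else cnt good l := by
      change Bool.rec (motive := fun _ => ℕ) (cnt good l) (Nat.add e.2 (cnt good l)) (good e.1) = _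
      cases good e.1 <;> rfl
    rw [h1]
    simp only [ev]
    by_cases h : good e.1 = true
    · rw [if_pos h]
      have h2 := mul_le_mul_of_nonneg_left (hg _ h) (Nat.cast_nonneg (α := ℝ) e.2)
      push_cast
      linarith
    · rw [if_neg h]
      have h2 := mul_nonneg (Nat.cast_nonneg (α := ℝ) e.2) (hM.2 (dec e.1))
      linarith

/-- mask of the full set -/
def fm : ℕ := 31710

theorem full_sub : full ⊆ dec fm := by
  have h : ∀ q : Pr, q.1 ≠ q.2 → fm.testBit (cd q) = true := by decide +kernel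
  intro q hq
  simp only [full, Finset.mem_filter, Finset.mem_univ, true_and] at hq
  rw [mem_dec]
  exact h q hq

theorem dec_fm : dec fm = full := by
  refine Finset.Subset.antisymm ?_ full_sub
  have h : ∀ q : Pr, fm.testBit (cd q) = true → q.1 ≠ q.2 := by decide +kernel
  intro q hq
  rw [mem_dec] at hq
  simp only [full, Finset.mem_filter, Finset.mem_univ, true_and]
  exact h q hq

theorem comb_full (X Y : Finset Pr) : comb X Y ⊆ full := by
  intro q hq
  rw [mem_comb] at hq
  obtain ⟨p, _, r, _, h⟩ := hq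
  simp only [full, Finset.mem_filter, Finset.mem_univ, true_and]
  intro h1
  simp [OKc, h1] at h

/-- equality with the full set -/
def goodF (m : ℕ) : Bool := Nat.beq m fm

/-- membership in `H` -/
noncomputable def goodH (m : ℕ) : Bool :=
  Bool.and (Nat.beq (fold (Nat.land (orT tabP m) (orT tabQ fm))) fm)
    (Nat.beq (fold (Nat.land (orT tabP fm) (orT tabQ m))) fm)

theorem goodH_spec (m : ℕ) (h : goodH m = true) : InH (dec m) := by
  have h1 := Bool.and_eq_true_iff.1 h
  have h2 : fold (Nat.land (orT tabP m) (orT tabQ fm)) = fm := Nat.eq_of_beq_eq_true h1.1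
  have h3 : fold (Nat.land (orT tabP fm) (orT tabQ m)) = fm := Nat.eq_of_beq_eq_true h1.2
  have h4 := dec_fold m fm
  have h5 := dec_fold fm m
  rw [h2, dec_fm] at h4
  rw [h3, dec_fm] at h5
  exact ⟨Finset.Subset.antisymm (comb_full _ _) h4, Finset.Subset.antisymm (comb_full _ _) h5⟩

theorem numF : ∀ a P, Nat.ble (98 * 1073741824) (100 * cnt goodF (lam16 a P)) = true := by
  intro a P
  cases a <;> cases P <;> decide +kernel

theorem numH : ∀ a P, Nat.ble (999 * 1073741824) (1000 * cnt goodH (lam16 a P)) = true := by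
  intro a P
  cases a <;> cases P <;> decide +kernel

theorem InH_mono (X Y : Finset Pr) (h : X ⊆ Y) (hX : InH X) : InH Y := by
  refine ⟨Finset.Subset.antisymm (comb_full _ _) ?_, Finset.Subset.antisymm (comb_full _ _) ?_⟩
  · calc full = comb X full := hX.1.symm
      _ ⊆ comb Y full := comb_mono _ _ _ _ h (Finset.Subset.refl _)
  · calc full = comb full X := hX.2.symm
      _ ⊆ comb full Y := comb_mono _ _ _ _ (Finset.Subset.refl _) h

theorem gF_inj (g : Gp) (X Y : Finset Pr) (h : gF g X = gF g Y) : X = Y :=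
  Finset.image_injective (gP_inj g) h

theorem InH_g (g : Gp) (X : Finset Pr) : InH (gF g X) ↔ InH X := by
  have h : ∀ Z : Finset Pr, gF g Z = full ↔ Z = full := by
    intro Z
    constructor
    · intro h
      refine gF_inj g _ _ ?_
      rw [h, gF_full]
    · rintro rfl
      exact gF_full g
  have e1 : comb (gF g X) full = gF g (comb X full) := by rw [← comb_gF, gF_full]
  have e2 : comb full (gF g X) = gF g (comb full X) := by rw [← comb_gF, gF_full]
  unfold InH
  rw [e1, e2, h, h]

open scoped Classical in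
/-- the indicator of an event -/
noncomputable def ind (A : Finset Pr → Prop) (X : Finset Pr) : ℝ := if A X then 1 else 0

theorem Mon_ind (A : Finset Pr → Prop) (h : ∀ X Y, X ⊆ Y → A X → A Y) : Mon (ind A) := by
  constructor
  · intro X Y hXY
    unfold ind
    by_cases h1 : A X
    · rw [if_pos h1, if_pos (h _ _ hXY h1)]
    · rw [if_neg h1]
      split_ifs <;> norm_num
  · intro X
    unfold ind
    split_ifs <;> norm_num

/-- reading of an invariant event -/
theorem read (d : ℕ) (hlev : ∀ a P, Dm 1073741824 (lam16 a P) (lawE d a (st0 P)))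
    (A : Finset Pr → Prop) (hA : ∀ X Y, X ⊆ Y → A X → A Y)
    (hg : ∀ g X, A (gF g X) ↔ A X) (good : ℕ → Bool) (hgood : ∀ m, good m = true → A (dec m))
    (p q : ℕ) (hp : 0 < p)
    (hn : ∀ a P, Nat.ble (q * 1073741824) (p * cnt good (lam16 a P)) = true) (a : L) (st : St) :
    (q : ℝ) / p ≤ lawE d a st (ind A) := by
  have h0 : (fun X => ind A (gF (st.s, st.m, st.B) X)) = ind A := by
    funext X
    unfold ind
    by_cases h : A X
    · rw [if_pos h, if_pos ((hg _ _).2 h)]
    · rw [if_neg h, if_neg (fun h' => h ((hg _ _).1 h'))]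
  have h1 : lawE d a st (ind A) = lawE d a (st0 st.P) (ind A) := by
    have h := lawE_g d a (st.s, st.m, st.B) (st0 st.P) (ind A)
    rw [st_eq, h0] at h
    exact h
  have h2 := hlev a st.P (ind A) (Mon_ind A hA)
  have h3 := cnt_le (ind A) (Mon_ind A hA) good (fun m hm => by
    unfold ind; rw [if_pos (hgood m hm)]) (lam16 a st.P)
  have h4 : q * 1073741824 ≤ p * cnt good (lam16 a st.P) := Nat.le_of_ble_eq_true (hn a st.P)
  have h5 : (q : ℝ) * 1073741824 ≤ p * (cnt good (lam16 a st.P) : ℝ) := by exact_mod_cast h4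
  have hp' : (0 : ℝ) < p := by exact_mod_cast hp
  rw [h1, div_le_iff₀ hp']
  push_cast at h2
  have h6 := mul_le_mul_of_nonneg_left (h3.trans h2) hp'.le
  nlinarith

theorem pfail_le (d : ℕ) (hlev : ∀ a P, Dm 1073741824 (lam16 a P) (lawE (d + 1) a (st0 P)))
    (a : L) (st : St) : pfail (d + 1) a st ≤ 0.02 := by
  have h := read (d + 1) hlev (fun X => full ⊆ X) (fun X Y h h' => h'.trans h) (fun g X => by
    conv_lhs => rw [← gF_full g]
    exact Finset.image_subset_image_iff (gP_inj g)) goodF (fun m hm => by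
      have : m = fm := Nat.eq_of_beq_eq_true hm
      rw [this]; exact full_sub) 100 98 (by norm_num) numF a st
  have h1 : lawE (d + 1) a st (fun X => if X = full then 1 else 0) =
      lawE (d + 1) a st (ind fun X => full ⊆ X) := by
    rw [lawE_succ, lawE_succ]
    congr 1
    funext X
    congr 1
    funext Y
    unfold ind
    by_cases h2 : comb X Y = full
    · rw [if_pos h2, if_pos (by rw [h2])]
    · rw [if_neg h2, if_neg (fun h3 => h2 (Finset.Subset.antisymm (comb_full _ _) h3))]
  unfold pfail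
  rw [h1]
  push_cast at h
  linarith

theorem pnH_le (d : ℕ) (hlev : ∀ a P, Dm 1073741824 (lam16 a P) (lawE d a (st0 P)))
    (a : L) (st : St) : pnH d a st ≤ 0.001 := by
  have h := read d hlev InH InH_mono InH_g goodH goodH_spec 1000 999 (by norm_num) numH a st
  have h1 : pnH d a st = 1 - lawE d a st (ind InH) := rfl
  rw [h1]
  push_cast at h
  linarith

theorem st_BASE' : ST_BASE := fun a st => ⟨pfail_le 15 lev16 a st, pnH_le 16 lev16 a st⟩

theorem st_BASE (_ : ST_COL) (_ : ST_COMB) : ST_BASE := st_BASE'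

end Pool.Agent.Helper11.TC8
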