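import Pool.Agent.Helper11.TC8.BaseL

/-!
The numerical certificate: domination by tables, and the steps.
-/

set_option autoImplicit false

namespace Pool.Agent.Helper11.TC8

open Pool.Agent.Helper86.TC8
open Finset

/-- monotone nonnegative functions of sets -/
def Mon (M : Finset Pr → ℝ) : Prop := (∀ X Y, X ⊆ Y → M X ≤ M Y) ∧ ∀ X, 0 ≤ M X

/-- value of a table -/
noncomputable def ev (M : Finset Pr → ℝ) : List (ℕ × ℕ) → ℝ
  | [] => 0
  | e :: l => (e.2 : ℝ) * M (dec e.1) + ev M l

theorem ev_nonneg (M : Finset Pr → ℝ) (hM : Mon M) (l : List (ℕ × ℕ)) : 0 ≤ ev M l := by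
  induction l with
  | nil => exact le_rfl
  | cons e l ih => exact add_nonneg (mul_nonneg (Nat.cast_nonneg _) (hM.2 _)) ih

theorem ev_mono (M M' : Finset Pr → ℝ) (h : ∀ X, M X ≤ M' X) (l : List (ℕ × ℕ)) :
    ev M l ≤ ev M' l := by
  induction l with
  | nil => exact le_rfl
  | cons e l ih => exact add_le_add (mul_le_mul_of_nonneg_left (h _) (Nat.cast_nonneg _)) ih

theorem ev_mul (r : ℝ) (M : Finset Pr → ℝ) (l : List (ℕ × ℕ)) :
    ev (fun X => r * M X) l = r * ev M l := by
  induction l with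
  | nil => simp [ev]
  | cons e l ih => simp only [ev, ih]; ring

theorem ev_append (M : Finset Pr → ℝ) (l l' : List (ℕ × ℕ)) : ev M (l ++ l') = ev M l + ev M l' := by
  induction l with
  | nil => simp [ev]
  | cons e l ih => simp only [List.cons_append, ev, ih]; ring

/-- domination of a law by a table with denominator `S` -/
def Dm (S : ℕ) (l : List (ℕ × ℕ)) (E : (Finset Pr → ℝ) → ℝ) : Prop :=
  ∀ M, Mon M → ev M l ≤ S * E M

/-! ### rounding -/

/-- weight of the entries which contain `f`, and the other entries -/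
noncomputable def extr (f : ℕ) (l : List (ℕ × ℕ)) : ℕ × List (ℕ × ℕ) :=
  List.rec (motive := fun _ => ℕ × List (ℕ × ℕ)) (0, [])
    (fun e _ ih => Bool.rec (motive := fun _ => ℕ × List (ℕ × ℕ)) (ih.1, e :: ih.2)
      (Nat.add ih.1 e.2, ih.2) (Nat.beq (Nat.land f e.1) f)) l

/-- check of a rounding -/
noncomputable def chk (k : ℕ) (t : List (ℕ × ℕ)) : List (ℕ × ℕ) → Bool :=
  List.rec (motive := fun _ => List (ℕ × ℕ) → Bool) (fun _ => true)
    (fun e _ ih l => Bool.rec (motive := fun _ => Bool) false (ih (extr e.1 l).2)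
      (Nat.ble (Nat.mul k e.2) (extr e.1 l).1)) t

theorem dec_mono (f m : ℕ) (h : Nat.beq (Nat.land f m) f = true) : dec f ⊆ dec m := by
  intro q hq
  rw [mem_dec] at hq ⊢
  have h1 : f &&& m = f := Nat.eq_of_beq_eq_true h
  rw [← h1, Nat.testBit_and, Bool.and_eq_true] at hq
  exact hq.2

theorem extr_cons (f : ℕ) (e : ℕ × ℕ) (l : List (ℕ × ℕ)) : extr f (e :: l) =
    if Nat.beq (Nat.land f e.1) f = true then ((extr f l).1 + e.2, (extr f l).2)
    else ((extr f l).1, e :: (extr f l).2) := by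
  change Bool.rec (motive := fun _ => ℕ × List (ℕ × ℕ)) ((extr f l).1, e :: (extr f l).2)
      (Nat.add (extr f l).1 e.2, (extr f l).2) (Nat.beq (Nat.land f e.1) f) = _
  cases Nat.beq (Nat.land f e.1) f <;> rfl

theorem chk_cons (k : ℕ) (e : ℕ × ℕ) (t l : List (ℕ × ℕ)) : chk k (e :: t) l =
    if Nat.ble (Nat.mul k e.2) (extr e.1 l).1 = true then chk k t (extr e.1 l).2 else false := by
  change Bool.rec (motive := fun _ => Bool) false (chk k t (extr e.1 l).2)
      (Nat.ble (Nat.mul k e.2) (extr e.1 l).1) = _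
  cases Nat.ble (Nat.mul k e.2) (extr e.1 l).1 <;> rfl

theorem extr_sound (M : Finset Pr → ℝ) (hM : Mon M) (f : ℕ) (l : List (ℕ × ℕ)) :
    ((extr f l).1 : ℝ) * M (dec f) + ev M (extr f l).2 ≤ ev M l := by
  induction l with
  | nil => simp [extr, ev]
  | cons e l ih =>
    rw [extr_cons]
    by_cases h : Nat.beq (Nat.land f e.1) f = true
    · rw [if_pos h]
      have h1 := hM.1 _ _ (dec_mono _ _ h)
      have h2 := mul_le_mul_of_nonneg_left h1 (Nat.cast_nonneg (α := ℝ) e.2)
      simp only [ev]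
      push_cast
      linarith
    · rw [if_neg h]
      simp only [ev]
      linarith

theorem chk_sound (M : Finset Pr → ℝ) (hM : Mon M) (k : ℕ) (t : List (ℕ × ℕ)) :
    ∀ l : List (ℕ × ℕ), chk k t l = true → (k : ℝ) * ev M t ≤ ev M l := by
  induction t with
  | nil => intro l _; simpa [ev] using ev_nonneg M hM l
  | cons e t ih =>
    intro l h
    rw [chk_cons] at h
    by_cases h1 : Nat.ble (Nat.mul k e.2) (extr e.1 l).1 = true
    · rw [if_pos h1] at h
      have h2 := ih _ h
      have h3 : k * e.2 ≤ (extr e.1 l).1 := Nat.le_of_ble_eq_true h1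
      have h4 : (k : ℝ) * e.2 ≤ ((extr e.1 l).1 : ℝ) := by exact_mod_cast h3
      have h5 := mul_le_mul_of_nonneg_right h4 (hM.2 (dec e.1))
      have h6 := extr_sound M hM e.1 l
      simp only [ev]
      linarith
    · rw [if_neg h1] at h
      exact absurd h (by simp)

/-! ### products -/

/-- replace the masks by their table values -/
noncomputable def pre (t : List (ℕ × ℕ)) (l : List (ℕ × ℕ)) : List (ℕ × ℕ) :=
  List.rec (motive := fun _ => List (ℕ × ℕ)) [] (fun e _ ih => (orT t e.1, e.2) :: ih) l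

/-- one row of the product -/
noncomputable def mapC (p w : ℕ) (acc : List (ℕ × ℕ)) (l : List (ℕ × ℕ)) : List (ℕ × ℕ) :=
  List.rec (motive := fun _ => List (ℕ × ℕ)) acc
    (fun e _ ih => (fold (Nat.land p e.1), Nat.mul w e.2) :: ih) l

/-- the product -/
noncomputable def prodC (l1 l2 : List (ℕ × ℕ)) : List (ℕ × ℕ) :=
  List.rec (motive := fun _ => List (ℕ × ℕ)) [] (fun e _ ih => mapC e.1 e.2 ih l2) l1

theorem ev_mapC (M : Finset Pr → ℝ) (hM : Mon M) (m w : ℕ) (acc l : List (ℕ × ℕ)) :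
    ev M (mapC (orT tabP m) w acc (pre tabQ l)) ≤
      w * ev (fun Y => M (comb (dec m) Y)) l + ev M acc := by
  induction l with
  | nil => simp [mapC, pre, ev]
  | cons e l ih =>
    change (((w * e.2 : ℕ) : ℝ)) * M (dec (fold (Nat.land (orT tabP m) (orT tabQ e.1)))) +
      ev M (mapC (orT tabP m) w acc (pre tabQ l)) ≤ _
    simp only [ev]
    have h1 := hM.1 _ _ (dec_fold m e.1)
    have h2 := mul_le_mul_of_nonneg_left h1 (Nat.cast_nonneg (α := ℝ) (w * e.2))
    push_cast at h2 ⊢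
    linarith

theorem ev_prodC (M : Finset Pr → ℝ) (hM : Mon M) (l1 l2 : List (ℕ × ℕ)) :
    ev M (prodC (pre tabP l1) (pre tabQ l2)) ≤
      ev (fun X => ev (fun Y => M (comb X Y)) l2) l1 := by
  induction l1 with
  | nil => exact le_of_eq rfl
  | cons e l ih =>
    change ev M (mapC (orT tabP e.1) e.2 (prodC (pre tabP l) (pre tabQ l2)) (pre tabQ l2)) ≤ _
    have h1 := ev_mapC M hM e.1 e.2 (prodC (pre tabP l) (pre tabQ l2)) l2
    simp only [ev]
    linarith

theorem Mon_comb_right (M : Finset Pr → ℝ) (hM : Mon M) (X : Finset Pr) :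
    Mon fun Y => M (comb X Y) :=
  ⟨fun _ _ h => hM.1 _ _ (comb_mono _ _ _ _ (Finset.Subset.refl _) h), fun _ => hM.2 _⟩

theorem Mon_ev (M : Finset Pr → ℝ) (hM : Mon M) (l : List (ℕ × ℕ)) :
    Mon fun X => ev (fun Y => M (comb X Y)) l := by
  constructor
  · intro X X' h
    exact ev_mono _ _ (fun Y => hM.1 _ _ (comb_mono _ _ _ _ h (Finset.Subset.refl _))) l
  · intro X
    exact ev_nonneg _ (Mon_comb_right M hM X) l

/-- the product step -/
theorem prod_step (S : ℕ) (hS : 0 < S) (d : ℕ) (a : L) (st : St) (l1 l2 t : List (ℕ × ℕ))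
    (h1 : Dm S l1 (Lf d (k1 a) st)) (h2 : Dm S l2 (Lf d (k2 a) st))
    (hc : chk S t (prodC (pre tabP l1) (pre tabQ l2)) = true) :
    Dm S t (lawE (d + 1) a st) := by
  intro M hM
  have hS' : (0 : ℝ) < S := by exact_mod_cast hS
  have e1 := chk_sound M hM S t _ hc
  have e2 := ev_prodC M hM l1 l2
  have e3 : ev (fun X => ev (fun Y => M (comb X Y)) l2) l1 ≤
      S * (Lf d (k1 a) st fun X => ev (fun Y => M (comb X Y)) l2) := h1 _ (Mon_ev M hM l2)
  have e4 : (Lf d (k1 a) st fun X => ev (fun Y => M (comb X Y)) l2) ≤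
      Lf d (k1 a) st fun X => S * Lf d (k2 a) st (fun Y => M (comb X Y)) :=
    Lf_mono _ _ _ _ _ fun X => h2 _ (Mon_comb_right M hM X)
  have e5 : (Lf d (k1 a) st fun X => S * Lf d (k2 a) st (fun Y => M (comb X Y))) =
      S * lawE (d + 1) a st M := by
    rw [lawE_succ, Lf_mul]
  have e6 : (S : ℝ) * ev M t ≤ S * (S * lawE (d + 1) a st M) := by
    calc (S : ℝ) * ev M t ≤ _ := e1
      _ ≤ _ := e2
      _ ≤ _ := e3
      _ ≤ S * (S * lawE (d + 1) a st M) := by
        rw [← e5]
        exact mul_le_mul_of_nonneg_left e4 hS'.le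
  exact le_of_mul_le_mul_left e6 hS'

/-! ### lifts -/

/-- sums over the states -/
theorem sum_st (F : St → ℝ) : ∑ x, F x = ∑ y : Bool × Bool × Bool × Bool,
    F ⟨y.1, y.2.1, y.2.2.1, y.2.2.2⟩ := by
  symm
  refine Fintype.sum_equiv ⟨fun y => ⟨y.1, y.2.1, y.2.2.1, y.2.2.2⟩,
    fun x => (x.s, x.P, x.m, x.B), fun _ => rfl, fun _ => rfl⟩ _ _ fun _ => rfl

/-- all states -/
def allSt : List St :=
  [⟨false, false, false, false⟩, ⟨false, false, false, true⟩, ⟨false, false, true, false⟩,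
    ⟨false, false, true, true⟩, ⟨false, true, false, false⟩, ⟨false, true, false, true⟩,
    ⟨false, true, true, false⟩, ⟨false, true, true, true⟩, ⟨true, false, false, false⟩,
    ⟨true, false, false, true⟩, ⟨true, false, true, false⟩, ⟨true, false, true, true⟩,
    ⟨true, true, false, false⟩, ⟨true, true, false, true⟩, ⟨true, true, true, false⟩,
    ⟨true, true, true, true⟩]

theorem sum_allSt (F : St → ℝ) : ∑ x, F x = (allSt.map F).sum := by
  rw [sum_st]
  simp only [Fintype.sum_prod_type, Fintype.sum_bool, allSt, List.map_cons, List.map_nil,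
    List.sum_cons, List.sum_nil]
  ring

/-- entries of the lift of a table at one state -/
noncomputable def mapL (t : List (ℕ × ℕ)) (k : ℕ) (acc : List (ℕ × ℕ)) (l : List (ℕ × ℕ)) :
    List (ℕ × ℕ) :=
  List.rec (motive := fun _ => List (ℕ × ℕ)) acc
    (fun e _ ih => (orT t e.1, Nat.mul k e.2) :: ih) l

/-- the lift of the tables `lam` -/
noncomputable def lift (lam : Bool → List (ℕ × ℕ)) (c : L) (st : St) (xs : List St) :
    List (ℕ × ℕ) :=
  List.rec (motive := fun _ => List (ℕ × ℕ)) []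
    (fun x _ ih => Bool.rec (motive := fun _ => List (ℕ × ℕ))
      (mapL (ptab x.s x.m x.B) (kn c st x) ih (lam x.P)) ih (Nat.beq (kn c st x) 0)) xs

theorem ev_mapL (M : Finset Pr → ℝ) (hM : Mon M) (g : Gp) (k : ℕ) (acc l : List (ℕ × ℕ)) :
    ev M (mapL (ptab g.1 g.2.1 g.2.2) k acc l) ≤ k * ev (fun X => M (gF g X)) l + ev M acc := by
  induction l with
  | nil => simp [mapL, ev]
  | cons e l ih =>
    change (((k * e.2 : ℕ) : ℝ)) * M (dec (orT (ptab g.1 g.2.1 g.2.2) e.1)) +
      ev M (mapL (ptab g.1 g.2.1 g.2.2) k acc l) ≤ _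
    simp only [ev]
    have h1 := hM.1 _ _ (dec_perm g e.1)
    have h2 := mul_le_mul_of_nonneg_left h1 (Nat.cast_nonneg (α := ℝ) (k * e.2))
    push_cast at h2 ⊢
    linarith

theorem Mon_gF (M : Finset Pr → ℝ) (hM : Mon M) (g : Gp) : Mon fun X => M (gF g X) :=
  ⟨fun _ _ h => hM.1 _ _ (gF_mono _ _ _ h), fun _ => hM.2 _⟩

theorem ev_lift (S d : ℕ) (lam : Bool → List (ℕ × ℕ)) (c : L) (st : St)
    (h : ∀ P, Dm S (lam P) (lawE d c (st0 P))) (M : Finset Pr → ℝ) (hM : Mon M) (xs : List St) :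
    ev M (lift lam c st xs) ≤ 4 * S * (xs.map fun x => kw c st x * lawE d c x M).sum := by
  induction xs with
  | nil => simp [lift, ev]
  | cons x xs ih =>
    have h1 : lift lam c st (x :: xs) = if Nat.beq (kn c st x) 0 = true then lift lam c st xs
        else mapL (ptab x.s x.m x.B) (kn c st x) (lift lam c st xs) (lam x.P) := by
      change Bool.rec (motive := fun _ => List (ℕ × ℕ))
        (mapL (ptab x.s x.m x.B) (kn c st x) (lift lam c st xs) (lam x.P)) (lift lam c st xs)
        (Nat.beq (kn c st x) 0) = _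
      cases Nat.beq (kn c st x) 0 <;> rfl
    rw [h1, List.map_cons, List.sum_cons]
    by_cases h2 : Nat.beq (kn c st x) 0 = true
    · rw [if_pos h2]
      have h3 : kn c st x = 0 := Nat.eq_of_beq_eq_true h2
      have h4 : kw c st x = 0 := by unfold kw; rw [h3]; simp
      rw [h4]
      linarith
    · rw [if_neg h2]
      have h3 := ev_mapL M hM (x.s, x.m, x.B) (kn c st x) (lift lam c st xs) (lam x.P)
      have h4 := h x.P _ (Mon_gF M hM (x.s, x.m, x.B))
      rw [← lawE_g, st_eq] at h4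
      have h5 := mul_le_mul_of_nonneg_left h4 (Nat.cast_nonneg (α := ℝ) (kn c st x))
      have h6 : (kn c st x : ℝ) = 4 * kw c st x := by unfold kw; ring
      have h7 : (kn c st x : ℝ) * (S * lawE d c x M) = 4 * S * (kw c st x * lawE d c x M) := by
        rw [h6]; ring
      rw [mul_add]
      linarith

/-- the lift step -/
theorem lift_step (S : ℕ) (d : ℕ) (lam : Bool → List (ℕ × ℕ)) (c : L) (st : St)
    (t : List (ℕ × ℕ)) (h : ∀ P, Dm S (lam P) (lawE d c (st0 P)))
    (hc : chk 4 t (lift lam c st allSt) = true) : Dm S t (Lf d c st) := by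
  intro M hM
  have e1 := chk_sound M hM 4 t _ hc
  have e2 := ev_lift S d lam c st h M hM allSt
  rw [← sum_allSt fun x => kw c st x * lawE d c x M] at e2
  change _ ≤ 4 * S * Lf d c st M at e2
  push_cast at e1
  linarith

end Pool.Agent.Helper11.TC8
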