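import Pool.Agent.Helper11.TC8.BaseT

/-!
The numerical certificate: laws, equivariance, domination by tables.
-/

set_option autoImplicit false

namespace Pool.Agent.Helper11.TC8

open Pool.Agent.Helper86.TC8
open Finset

/-! ### basic rules for `lawE` -/

theorem kw_nonneg (c : L) (x y : St) : 0 ≤ kw c x y := by
  unfold kw
  positivity

theorem lawE_mono (d : ℕ) : ∀ (a : L) (st : St) (M M' : Finset Pr → ℝ), (∀ X, M X ≤ M' X) →
    lawE d a st M ≤ lawE d a st M' := by
  induction d with
  | zero => intro a st M M' h; exact h _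
  | succ d ih =>
    intro a st M M' h
    simp only [lawE]
    refine Finset.sum_le_sum fun x _ => Finset.sum_le_sum fun y _ => ?_
    refine mul_le_mul_of_nonneg_left ?_ (mul_nonneg (kw_nonneg _ _ _) (kw_nonneg _ _ _))
    exact ih _ _ _ _ fun X => ih _ _ _ _ fun Y => h _

theorem lawE_sum (d : ℕ) : ∀ (a : L) (st : St) (k : St → ℝ) (F : St → Finset Pr → ℝ),
    lawE d a st (fun X => ∑ y, k y * F y X) = ∑ y, k y * lawE d a st (F y) := by
  induction d with
  | zero => intro a st k F; rfl
  | succ d ih =>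
    intro a st k F
    simp only [lawE]
    have h1 : ∀ x y : St, lawE d (k1 a) x (fun X => lawE d (k2 a) y
        (fun Y => ∑ z, k z * F z (comb X Y))) =
        ∑ z, k z * lawE d (k1 a) x (fun X => lawE d (k2 a) y (fun Y => F z (comb X Y))) := by
      intro x y
      have h2 : ∀ X, lawE d (k2 a) y (fun Y => ∑ z, k z * F z (comb X Y)) =
          ∑ z, k z * lawE d (k2 a) y (fun Y => F z (comb X Y)) := fun X =>
        ih (k2 a) y k fun z Y => F z (comb X Y)
      simp only [h2]
      exact ih (k1 a) x k fun z X => lawE d (k2 a) y (fun Y => F z (comb X Y))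
    simp only [h1, Finset.mul_sum]
    conv_rhs => rw [Finset.sum_comm]
    refine Finset.sum_congr rfl fun x _ => ?_
    conv_rhs => rw [Finset.sum_comm]
    refine Finset.sum_congr rfl fun y _ => Finset.sum_congr rfl fun z _ => ?_
    ring

theorem lawE_mul (d : ℕ) : ∀ (a : L) (st : St) (r : ℝ) (M : Finset Pr → ℝ),
    lawE d a st (fun X => r * M X) = r * lawE d a st M := by
  induction d with
  | zero => intro a st r M; rfl
  | succ d ih =>
    intro a st r M
    simp only [lawE, ih, Finset.mul_sum]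
    refine Finset.sum_congr rfl fun x _ => Finset.sum_congr rfl fun y _ => ?_
    ring

/-- law of the child in direction `c` -/
noncomputable def Lf (d : ℕ) (c : L) (st : St) (M : Finset Pr → ℝ) : ℝ :=
  ∑ x, kw c st x * lawE d c x M

theorem Lf_mono (d : ℕ) (c : L) (st : St) (M M' : Finset Pr → ℝ) (h : ∀ X, M X ≤ M' X) :
    Lf d c st M ≤ Lf d c st M' :=
  Finset.sum_le_sum fun _ _ => mul_le_mul_of_nonneg_left (lawE_mono _ _ _ _ _ h) (kw_nonneg _ _ _)

theorem Lf_mul (d : ℕ) (c : L) (st : St) (r : ℝ) (M : Finset Pr → ℝ) :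
    Lf d c st (fun X => r * M X) = r * Lf d c st M := by
  simp only [Lf, lawE_mul, Finset.mul_sum]
  refine Finset.sum_congr rfl fun x _ => ?_
  ring

theorem lawE_succ (d : ℕ) (a : L) (st : St) (M : Finset Pr → ℝ) :
    lawE (d + 1) a st M = Lf d (k1 a) st (fun X => Lf d (k2 a) st (fun Y => M (comb X Y))) := by
  simp only [lawE, Lf]
  refine Finset.sum_congr rfl fun x _ => ?_
  rw [lawE_sum d (k1 a) x (fun y => kw (k2 a) st y)
    (fun y X => lawE d (k2 a) y (fun Y => M (comb X Y))), Finset.mul_sum]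
  refine Finset.sum_congr rfl fun y _ => ?_
  ring

theorem comb_mono (X X' Y Y' : Finset Pr) (h : X ⊆ X') (h' : Y ⊆ Y') : comb X Y ⊆ comb X' Y' := by
  intro q hq
  rw [mem_comb] at hq ⊢
  obtain ⟨p, hp, r, hr, h1⟩ := hq
  exact ⟨p, h hp, r, h' hr, h1⟩

/-! ### equivariance -/

theorem gC_ne : ∀ (g : Gp) (a b : Col), (gC g a != gC g b) = (a != b) := by decide +kernel

theorem OKc_g (g : Gp) (q p r : Pr) : OKc (gP g q) (gP g p) (gP g r) = OKc q p r := by
  simp only [OKc, gP, gC_ne]

theorem gP_inj : ∀ g : Gp, Function.Injective (gP g) := by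
  have h : ∀ g : Gp, ∀ x y : Pr, gP g x = gP g y → x = y := by decide +kernel
  exact fun g x y => h g x y

theorem gP_surj (g : Gp) : Function.Surjective (gP g) := Finite.surjective_of_injective (gP_inj g)

theorem mem_gF (g : Gp) (X : Finset Pr) (q : Pr) : gP g q ∈ gF g X ↔ q ∈ X := by
  rw [gF, Finset.mem_image]
  constructor
  · rintro ⟨p, hp, h⟩
    rw [← gP_inj g h]; exact hp
  · intro h; exact ⟨q, h, rfl⟩

theorem comb_gF (g : Gp) (X Y : Finset Pr) : comb (gF g X) (gF g Y) = gF g (comb X Y) := by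
  ext q
  obtain ⟨q, rfl⟩ := gP_surj g q
  rw [mem_gF, mem_comb, mem_comb]
  constructor
  · rintro ⟨p, hp, r, hr, h⟩
    obtain ⟨p, rfl⟩ := gP_surj g p
    obtain ⟨r, rfl⟩ := gP_surj g r
    rw [mem_gF] at hp hr
    rw [OKc_g] at h
    exact ⟨p, hp, r, hr, h⟩
  · rintro ⟨p, hp, r, hr, h⟩
    exact ⟨gP g p, (mem_gF g X p).2 hp, gP g r, (mem_gF g Y r).2 hr, by rw [OKc_g]; exact h⟩

theorem gF_full (g : Gp) : gF g full = full := by
  ext q
  obtain ⟨q, rfl⟩ := gP_surj g q
  rw [mem_gF]
  have h : ∀ (g : Gp) (q : Pr), (q.1 ≠ q.2 ↔ (gP g q).1 ≠ (gP g q).2) := by decide +kernel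
  simp only [full, Finset.mem_filter, Finset.mem_univ, true_and]
  exact h g q

theorem gF_mono (g : Gp) (X Y : Finset Pr) (h : X ⊆ Y) : gF g X ⊆ gF g Y :=
  Finset.image_subset_image h

theorem gS_inj : ∀ g : Gp, Function.Injective (gS g) := by
  have h : ∀ g : Gp, ∀ x y : St, gS g x = gS g y → x = y := by decide +kernel
  exact fun g x y => h g x y

theorem gS_bij (g : Gp) : Function.Bijective (gS g) := Finite.injective_iff_bijective.1 (gS_inj g)


theorem pair_g : ∀ (a : L) (g : Gp) (x : St), pair a (gS g x) = gP g (pair a x) := by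
  decide +kernel

theorem kn_g : ∀ (c : L) (g : Gp) (x y : St), kn c (gS g x) (gS g y) = kn c x y := by
  decide +kernel

theorem kw_g (c : L) (g : Gp) (x y : St) : kw c (gS g x) (gS g y) = kw c x y := by
  unfold kw
  rw [kn_g]

theorem lawE_g (d : ℕ) : ∀ (a : L) (g : Gp) (x : St) (M : Finset Pr → ℝ),
    lawE d a (gS g x) M = lawE d a x (fun X => M (gF g X)) := by
  induction d with
  | zero =>
    intro a g x M
    change M {pair a (gS g x)} = M (gF g {pair a x})
    rw [pair_g, gF, Finset.image_singleton]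
  | succ d ih =>
    intro a g x M
    simp only [lawE]
    rw [← (gS_bij g).sum_comp]
    refine Finset.sum_congr rfl fun x' _ => ?_
    rw [← (gS_bij g).sum_comp]
    refine Finset.sum_congr rfl fun y' _ => ?_
    rw [kw_g, kw_g, ih]
    congr 1
    congr 1
    funext X
    rw [ih]
    congr 1
    funext Y
    rw [comb_gF]

/-- standard states -/
def st0 (P : Bool) : St := ⟨false, P, false, false⟩

theorem st_eq : ∀ x : St, gS (x.s, x.m, x.B) (st0 x.P) = x := by decide +kernel

end Pool.Agent.Helper11.TC8
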