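import Pool.Agent.Helper86.TC8.Stmts

/-!
The numerical certificate: theory of masks and tables.
-/

set_option autoImplicit false

namespace Pool.Agent.Helper11.TC8

open Pool.Agent.Helper86.TC8
open Finset

/-! ### codes and masks -/

/-- a Boolean as a number -/
def bn (b : Bool) : ℕ := bif b then 1 else 0

/-- code of a pair -/
def cd (q : Pr) : ℕ := 8 * bn q.1.1 + 4 * bn q.1.2 + 2 * bn q.2.1 + bn q.2.2

/-- set of a mask -/
noncomputable def dec (m : ℕ) : Finset Pr := univ.filter fun q => m.testBit (cd q) = true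

theorem mem_dec (m : ℕ) (q : Pr) : q ∈ dec m ↔ m.testBit (cd q) = true := by simp [dec]

/-- pair with a given code -/
def prd (i : ℕ) : Pr := ((i.testBit 3, i.testBit 2), (i.testBit 1, i.testBit 0))

/-- fast bit test, `k` a power of two -/
def tb (m k : ℕ) : Bool := Nat.beq (Nat.mod (Nat.div m k) 2) 1

theorem tb_iff (m i : ℕ) : tb m (2 ^ i) = true ↔ m.testBit i = true := by
  rw [Nat.testBit_eq_decide_div_mod_eq, decide_eq_true_iff]
  constructor
  · intro h
    exact Nat.eq_of_beq_eq_true h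
  · intro h
    have h' : Nat.mod (Nat.div m (2 ^ i)) 2 = 1 := h
    rw [tb, h']
    rfl

/-- or of the entries of a table at the bits of `m` -/
noncomputable def orT (t : List (ℕ × ℕ)) (m : ℕ) : ℕ :=
  List.rec (motive := fun _ => ℕ) 0
    (fun e _ ih => Bool.rec (motive := fun _ => ℕ) ih (Nat.lor e.2 ih) (tb m e.1)) t

theorem orT_cons (e : ℕ × ℕ) (t : List (ℕ × ℕ)) (m : ℕ) :
    orT (e :: t) m = if tb m e.1 = true then e.2 ||| orT t m else orT t m := by
  change Bool.rec (motive := fun _ => ℕ) (orT t m) (Nat.lor e.2 (orT t m)) (tb m e.1) = _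
  cases tb m e.1 <;> rfl

theorem testBit_orT (t : List (ℕ × ℕ)) (m i : ℕ) (h : (orT t m).testBit i = true) :
    ∃ e ∈ t, tb m e.1 = true ∧ e.2.testBit i = true := by
  induction t with
  | nil => exact absurd h (by simp [orT])
  | cons e t ih =>
    rw [orT_cons] at h
    by_cases hb : tb m e.1 = true
    · rw [if_pos hb, Nat.testBit_or, Bool.or_eq_true] at h
      rcases h with h | h
      · exact ⟨e, by simp, hb, h⟩
      · obtain ⟨e', he', h1, h2⟩ := ih h
        exact ⟨e', by simp [he'], h1, h2⟩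
    · rw [if_neg hb] at h
      obtain ⟨e', he', h1, h2⟩ := ih h
      exact ⟨e', by simp [he'], h1, h2⟩

/-- masks of first factors -/
def tabP : List (ℕ × ℕ) :=
  [(2, 18624), (4, 10880), (8, 25152), (16, 1207959564), (64, 134222088), (128, 1073746180), (256,
    545783810), (512, 277348368), (2048, 805306386), (4096, 38141952), (8192, 22282240), (16384,
    51511296)]

/-- masks of second factors -/
def tabQ : List (ℕ × ℕ) :=
  [(2, 1220542464), (4, 713031680), (8, 1648361472), (16, 804864), (64, 285739008), (128,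
    285491200), (256, 139400), (512, 1052808), (2048, 1191936), (4096, 582), (8192, 340), (16384,
    786)]

/-- colour permutations on codes -/
def ptab : Bool → Bool → Bool → List (ℕ × ℕ)
  | false, false, false => [(2, 2), (4, 4), (8, 8), (16, 16), (64, 64), (128, 128), (256, 256),
    (512, 512), (2048, 2048), (4096, 4096), (8192, 8192), (16384, 16384)]
  | false, false, true => [(2, 2), (4, 8), (8, 4), (16, 16), (64, 128), (128, 64), (256, 4096),
    (512, 8192), (2048, 16384), (4096, 256), (8192, 512), (16384, 2048)]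
  | false, true, false => [(2, 16), (4, 64), (8, 128), (16, 2), (64, 4), (128, 8), (256, 512),
    (512, 256), (2048, 2048), (4096, 8192), (8192, 4096), (16384, 16384)]
  | false, true, true => [(2, 16), (4, 128), (8, 64), (16, 2), (64, 8), (128, 4), (256, 8192),
    (512, 4096), (2048, 16384), (4096, 512), (8192, 256), (16384, 2048)]
  | true, false, false => [(2, 2048), (4, 256), (8, 512), (16, 16384), (64, 4096), (128, 8192),
    (256, 4), (512, 8), (2048, 2), (4096, 64), (8192, 128), (16384, 16)]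
  | true, false, true => [(2, 2048), (4, 512), (8, 256), (16, 16384), (64, 8192), (128, 4096),
    (256, 64), (512, 128), (2048, 16), (4096, 4), (8192, 8), (16384, 2)]
  | true, true, false => [(2, 16384), (4, 4096), (8, 8192), (16, 2048), (64, 256), (128, 512),
    (256, 8), (512, 4), (2048, 2), (4096, 128), (8192, 64), (16384, 16)]
  | true, true, true => [(2, 16384), (4, 8192), (8, 4096), (16, 2048), (64, 512), (128, 256),
    (256, 128), (512, 64), (2048, 16), (4096, 8), (8192, 4), (16384, 2)]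

/-! ### combining masks -/

theorem tabP_fst : ∀ e ∈ tabP, e.1 = 2 ^ (cd (prd (Nat.log2 e.1))) := by decide +kernel

theorem tabQ_fst : ∀ e ∈ tabQ, e.1 = 2 ^ (cd (prd (Nat.log2 e.1))) := by decide +kernel

theorem tab_lo : ∀ e ∈ tabP, ∀ f ∈ tabQ, ∀ q : Pr,
    e.2.testBit (cd q) = true → f.2.testBit (cd q) = true →
    OKc q (prd (Nat.log2 e.1)) (prd (Nat.log2 f.1)) = true := by decide +kernel

theorem tab_hi : ∀ e ∈ tabP, ∀ f ∈ tabQ, ∀ q : Pr,
    e.2.testBit (16 + cd q) = true → f.2.testBit (16 + cd q) = true →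
    OKc q (prd (Nat.log2 e.1)) (prd (Nat.log2 f.1)) = true := by decide +kernel

theorem cd_lt : ∀ q : Pr, cd q < 16 := by decide

/-- the two halves together -/
def fold (r : ℕ) : ℕ := Nat.lor (Nat.mod r 65536) (Nat.div r 65536)

theorem mem_comb (X Y : Finset Pr) (q : Pr) :
    q ∈ comb X Y ↔ ∃ p ∈ X, ∃ r ∈ Y, OKc q p r = true := by simp [comb]

theorem dec_fold (m1 m2 : ℕ) :
    dec (fold (Nat.land (orT tabP m1) (orT tabQ m2))) ⊆ comb (dec m1) (dec m2) := by
  intro q hq
  rw [mem_dec] at hq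
  have key : ∀ i : ℕ, (∀ e ∈ tabP, ∀ f ∈ tabQ, e.2.testBit i = true → f.2.testBit i = true →
      OKc q (prd (Nat.log2 e.1)) (prd (Nat.log2 f.1)) = true) →
      (orT tabP m1 &&& orT tabQ m2).testBit i = true → q ∈ comb (dec m1) (dec m2) := by
    intro i hi h
    rw [Nat.testBit_and, Bool.and_eq_true] at h
    obtain ⟨e, he, h1, h2⟩ := testBit_orT _ _ _ h.1
    obtain ⟨f, hf, h3, h4⟩ := testBit_orT _ _ _ h.2
    rw [mem_comb]
    refine ⟨prd (Nat.log2 e.1), ?_, prd (Nat.log2 f.1), ?_, hi e he f hf h2 h4⟩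
    · rw [mem_dec, ← tb_iff, ← tabP_fst e he]; exact h1
    · rw [mem_dec, ← tb_iff, ← tabQ_fst f hf]; exact h3
  have h0 : fold (Nat.land (orT tabP m1) (orT tabQ m2)) =
      (orT tabP m1 &&& orT tabQ m2) % 2 ^ 16 ||| (orT tabP m1 &&& orT tabQ m2) / 2 ^ 16 := rfl
  rw [h0, Nat.testBit_or, Bool.or_eq_true, Nat.testBit_mod_two_pow, Nat.testBit_div_two_pow,
    Bool.and_eq_true] at hq
  rcases hq with hq | hq
  · exact key _ (fun e he f hf => tab_lo e he f hf q) hq.2
  · exact key (16 + cd q) (fun e he f hf => tab_hi e he f hf q) (by rw [add_comm]; exact hq)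

/-! ### colour permutations -/

/-- parameters of a colour permutation: flip of the sides, of the bits of side 0, of side 1 -/
abbrev Gp := Bool × Bool × Bool

/-- action on colours -/
def gC (g : Gp) (c : Col) : Col := (c.1 ^^ g.1, c.2 ^^ (bif c.1 then g.2.2 else g.2.1))

/-- action on pairs -/
def gP (g : Gp) (q : Pr) : Pr := (gC g q.1, gC g q.2)

/-- action on states -/
def gS (g : Gp) (x : St) : St :=
  ⟨x.s ^^ g.1, x.P, x.m ^^ (bif x.s then g.2.2 else g.2.1), x.B ^^ (bif x.s then g.2.1 else g.2.2)⟩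

/-- action on sets of pairs -/
noncomputable def gF (g : Gp) (X : Finset Pr) : Finset Pr := X.image (gP g)

theorem ptab_fst : ∀ g : Gp, ∀ e ∈ ptab g.1 g.2.1 g.2.2, e.1 = 2 ^ (cd (prd (Nat.log2 e.1))) := by
  decide +kernel

theorem ptab_snd : ∀ g : Gp, ∀ e ∈ ptab g.1 g.2.1 g.2.2, ∀ q : Pr,
    e.2.testBit (cd q) = true → gP g (prd (Nat.log2 e.1)) = q := by decide +kernel

theorem dec_perm (g : Gp) (m : ℕ) : dec (orT (ptab g.1 g.2.1 g.2.2) m) ⊆ gF g (dec m) := by
  intro q hq
  rw [mem_dec] at hq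
  obtain ⟨e, he, h1, h2⟩ := testBit_orT _ _ _ hq
  rw [gF, Finset.mem_image]
  refine ⟨prd (Nat.log2 e.1), ?_, ptab_snd g e he q h2⟩
  rw [mem_dec, ← tb_iff, ← ptab_fst g e he]
  exact h1

end Pool.Agent.Helper11.TC8
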